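import Pool.Agent.R942.WS.Tate

/-!
# The weight-monodromy conjecture for simple Frobenius characters
-/

set_option autoImplicit false

namespace Pool.Agent.R942.WS

open Module Pool.Agent.Y143 Pool.Agent.R942.WM

universe u v

variable {Ω : Type u} [Field Ω] [CharZero Ω] {Γ : Type} {n q : ℕ}

/-- `N ^ k` is an isomorphism on the `E_2` term. -/
lemma iso_of [IsAlgClosed Ω] {X : Degeneration.{u, v} Ω Γ n q}
    (A : DivisorClasses X.toSpecialFibre) {W : ℕ} (hW : GoodUpTo A W) {m k : ℕ} (hk : 1 ≤ k)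
    (hkm : (m : ℤ) - k ≤ W) :
    NInj X.diff X.tot (k : ℤ) ((m : ℤ) - n) ∧ NSurj X.diff X.tot (k : ℤ) ((m : ℤ) - n) := by
  have key : ∀ χ : Γ → Ω, Good2 X.diff (X.cls χ 0) (X.cls (X.dualChar χ) (1 - 0)) (k : ℤ)
      ((m : ℤ) - n) := by
    intro χ
    refine (main' (D := (m : ℤ) - n - k) (X.cls_dual 0 χ) (X.cls_lefComplex χ 0)
      (X.cls_lefComplex (X.dualChar χ) (1 - 0)) (fun i hi m' hm' => ⟨?_, ?_⟩) (k : ℤ)
      ((m : ℤ) - n) le_rfl).good (by omega)
    · exact fine_of A W hW χ 0 i hi m' (by omega)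
    · exact fine_of A W hW (X.dualChar χ) (1 - 0) i hi m' (by omega)
  exact ⟨nInj_of_cl X.sym n 0 _ _ fun χ => (key χ).inj,
    nSurj_of_cl X.sym n 0 _ _ fun χ => (key χ).surj⟩

theorem pure_beyond [IsAlgClosed Ω] (X : Degeneration.{u, v} Ω Γ n q)
    (A : DivisorClasses X.toSpecialFibre) {W : ℕ} (hW : GoodUpTo A W) {m : ℕ} (hm : m ≤ n) :
    PureBeyond X.toSemistableModel m (m - W - 1) ∧
      PureBeyond X.toSemistableModel (2 * n - m) (m - W - 1) :=
  beyond hm (fun _ hk hkm => (iso_of A hW (by omega) (by omega)).1)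
    (fun _ hk hkm => (iso_of A hW (by omega) (by omega)).2)

theorem pure_all [IsAlgClosed Ω] (X : Degeneration.{u, v} Ω Γ n q)
    (A : DivisorClasses X.toSpecialFibre) {W : ℕ} (hW : GoodUpTo A W) (hn : n ≤ W + 1) (m : ℕ)
    (hm : m ≤ 2 * n) : IsMWPure q m (X.actV m X.frob) (X.N m) := by
  rcases le_or_gt m n with h | h
  · exact (pure_beyond X A hW h).1.full (by omega)
  · have h1 := (pure_beyond X A hW (m := 2 * n - m) (by omega)).2
    rw [show 2 * n - (2 * n - m) = m by omega] at h1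
    exact h1.full (by omega)

end Pool.Agent.R942.WS
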