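import Pool.Agent.Y143.SimpleDefs
import Pool.Agent.R942.WM.Defs

/-!
# The condition on the characters
-/

set_option autoImplicit false

namespace Pool.Agent.R942.WS

open Module Pool.Agent.Y143

universe u v

variable {Ω : Type u} [Field Ω] [CharZero Ω] {Γ : Type} {n q : ℕ}

/-- The condition on the character `χ` at the place `(i, w)`: it is simple, or it is a Tate
character in the weight `2` and the Tate conjecture for divisors holds for `Y^(i)`. -/
def Good {X : SpecialFibre.{u, v} Ω Γ n q} (A : DivisorClasses X) (i w : ℕ) (χ : Γ → Ω) : Prop :=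
  X.SimpleAt i w χ ∨ (w = 2 ∧ IsTateNumber q (χ X.frob) ∧ A.TateConj (i - 1))

/-- All characters of weight `w` with `2 ≤ w ≤ W` satisfy the condition at all places `(i, w)`
with `1 ≤ i ≤ n - w`. -/
def GoodUpTo {X : SpecialFibre.{u, v} Ω Γ n q} (A : DivisorClasses X) (W : ℕ) : Prop :=
  ∀ i w : ℕ, 1 ≤ i → 2 ≤ w → w ≤ W → i + w ≤ n → ∀ χ : Γ → Ω, Good A i w χ

end Pool.Agent.R942.WS
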