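import Pool.Agent.R942.WS.Classes
import Pool.Agent.R942.WM.Final
import Pool.Agent.R942.WS.Defs

/-!
# The Tate part of the second cohomology groups of the strata
-/

set_option autoImplicit false

namespace Pool.Agent.R942.WS

open Module Pool.Agent.Y143 Pool.Agent.R942.WM

universe u v

variable {Ω : Type u} [Field Ω] [CharZero Ω] {Γ : Type} {n q : ℕ}

variable {X : SpecialFibre.{u, v} Ω Γ n q}

/-- A cocycle of the column `-(a + 1)` which is the differential of `y` in the column `a` is a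
coboundary if the components of `y` can be corrected. -/
lemma bd_of {a k : ℕ} (hk : k ≤ 2) {x y : X.C}
    (hx1 : x ∈ X.tot (-((a + 1 : ℕ) : ℤ)) (((a + 1 + k : ℕ) : ℤ) - n))
    (hx2 : X.diff (-((a + 1 : ℕ) : ℤ)) x = 0)
    (hy : y ∈ X.tot (a : ℤ) (((a + k : ℕ) : ℤ) - n)) (hyx : X.diff a y = x)
    (H : X.gys a (X.res a (y a) + X.gys (a + 1) (y (a + 2))) = 0 →
      ∃ c' ∈ X.gr (a + 2) ((k : ℤ) - 2),
        X.res a (y a) + X.gys (a + 1) (y (a + 2)) = X.gys (a + 1) c' ∧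
          X.res (a + 2) (y (a + 2)) = X.res (a + 2) c') :
    x ∈ Bd X.diff X.tot (-((a + 1 : ℕ) : ℤ)) (((a + 1 + k : ℕ) : ℤ) - n) := by
  obtain ⟨h1, h3⟩ := diff_vals hk hy
  rw [hyx] at h1 h3
  have hg : X.gys a (x (a + 1)) = 0 := by
    rw [← diff_neg_val hx1, hx2]
    rfl
  rw [h1] at hg
  obtain ⟨c', hc', h4, h5⟩ := H hg
  have hz := fam_mem' (X := X) (k := k) hc'
  obtain ⟨h6, h7⟩ := diff_neg_vals hk hz
  rw [fam_right] at h6 h7
  refine ⟨fam a 0 c', tot_cast (by push_cast; ring) (by push_cast; ring) hz, ?_⟩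
  have hxt := hx1
  rw [tot_neg] at hxt
  rw [show (-(((a + 1 : ℕ) : ℤ)) - 1) = -(((a + 2 : ℕ) : ℤ)) by push_cast; ring]
  have h8 : X.diff (-(((a + 2 : ℕ) : ℤ))) (fam a 0 c') ∈
      X.tot ((a + 1 : ℕ) : ℤ) (((a + 1 + k : ℕ) : ℤ) - n) := by
    have h9 := X.diff_mem (r := -(((a + 2 : ℕ) : ℤ))) hz
    rw [← tot_neg]
    exact X.mem_E₁_cast (by push_cast; ring) (by push_cast; ring) h9
  apply ext_of hk h8 hxt
  · rw [h6, ← h4, h1]
  · rw [h7, ← h5, h3]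

/-- The leading component of a family of character `μ` in the column `a`. -/
lemma pow_comp (a : ℕ) (g : Γ) (μ : Ω) (k : ℕ) (y : X.C) :
    (((X.actC (a : ℤ) g - μ • (1 : Module.End Ω X.C)) ^ k) y) a =
      ((X.act a g - μ • (1 : Module.End Ω (X.H a))) ^ k) (y a) := by
  induction k generalizing y with
  | zero => rfl
  | succ k ih =>
    rw [pow_succ, Module.End.mul_apply, ih, pow_succ, Module.End.mul_apply]
    congr 1
    rw [LinearMap.sub_apply, Pi.sub_apply, X.actC_apply, sub_self]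
    simp

lemma comp_eigen {a : ℕ} {μ : Γ → Ω} {y : X.C} (hy : y ∈ Wt (X.actC (a : ℤ)) μ) (g : Γ) :
    y a ∈ (X.act a g).maxGenEigenspace (μ g) := by
  obtain ⟨k, hk⟩ := mem_Wt.1 hy g
  rw [Module.End.mem_maxGenEigenspace]
  refine ⟨k, ?_⟩
  rw [← pow_comp, hk]
  rfl

/-- The critical places of weight `2`, for the Tate characters. -/
lemma nInj_tate [IsAlgClosed Ω] (A : DivisorClasses X) {a e : ℕ} (ha : n = a + 3 + e)
    (hA : A.TateConj a) (χ : Γ → Ω) (p : ℤ)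
    (hχ : IsTateNumber q (chr X.cyc' χ n p ((a + 1 : ℕ) : ℤ) (((a + 3 : ℕ) : ℤ) - n) X.frob)) :
    NInj X.diff (X.cls χ p) ((a + 1 : ℕ) : ℤ) (((a + 3 : ℕ) : ℤ) - n) := by
  rintro x ⟨⟨hx1, hx2⟩, ⟨y, hy, hyx⟩⟩
  have hx1' : x ∈ X.tot (-((a + 1 : ℕ) : ℤ)) (((a + 1 + 2 : ℕ) : ℤ) - n) :=
    tot_cast rfl (by push_cast; ring) hx1.1
  have hy' : y ∈ X.tot (a : ℤ) (((a + 2 : ℕ) : ℤ) - n) :=
    tot_cast (by push_cast; ring) (by push_cast; ring) hy.1
  have hyx' : X.diff a y = x := by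
    rw [← hyx]
    exact diff_cast (by push_cast; ring) y
  have hyw : y ∈ Wt (X.actC (a : ℤ)) (chr X.cyc' χ n p (a : ℤ) (((a + 2 : ℕ) : ℤ) - n)) := by
    have h1 := hy.2
    rwa [show ((a + 1 : ℕ) : ℤ) - 1 = a by push_cast; ring,
      show ((a + 3 : ℕ) : ℤ) - n - 1 = ((a + 2 : ℕ) : ℤ) - n by push_cast; ring] at h1
  have hchr : chr X.cyc' χ n p (a : ℤ) (((a + 2 : ℕ) : ℤ) - n) =
      chr X.cyc' χ n p ((a + 1 : ℕ) : ℤ) (((a + 3 : ℕ) : ℤ) - n) := by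
    have := chr_d (c := X.cyc') (χ := χ) n p (a : ℤ) (((a + 2 : ℕ) : ℤ) - n)
    rw [← this]
    congr 1
    push_cast
    ring
  rw [hchr] at hyw
  have hya : y a ∈ X.gr a 2 := by
    have := tot_deg hy' (a := a) (k := 2) (by push_cast; ring)
    exact this
  have hyc : y (a + 2) ∈ X.gr (a + 2) 0 := tot_deg hy' (by push_cast; ring)
  have hdiv := hA _ hχ _ hya (comp_eigen hyw X.frob)
  have h1 : x ∈ Bd X.diff X.tot (-((a + 1 : ℕ) : ℤ)) (((a + 1 + 2 : ℕ) : ℤ) - n) := by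
    refine bd_of le_rfl hx1' hx2 hy' hyx' (fun h => ?_)
    obtain ⟨c', hc1, hc2, hc3⟩ := two_inj A ha hdiv hyc (fun u' _ => by
      rw [← res_lef_pow, ← X.pair_gys, h, map_zero, LinearMap.zero_apply])
    exact ⟨c', by simpa using hc1, hc2, hc3⟩
  have h2 : ((a + 1 + 2 : ℕ) : ℤ) - n = ((a + 3 : ℕ) : ℤ) - n := by push_cast; ring
  rw [h2] at h1
  exact bd_of_mem X.sym χ n p _ _ hx1 h1

/-- The critical place `(i, m)` in the class of `χ`. -/
lemma fine_of [IsAlgClosed Ω] {X : Degeneration.{u, v} Ω Γ n q}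
    (A : DivisorClasses X.toSpecialFibre) (W : ℕ)
    (hW : ∀ i w : ℕ, 1 ≤ i → 2 ≤ w → w ≤ W → i + w ≤ n → ∀ χ : Γ → Ω, Good A i w χ)
    (χ : Γ → Ω) (p : ℤ) (i : ℤ) (hi : 1 ≤ i) (m : ℕ) (hm : (n : ℤ) - m - i ≤ W) :
    Fine X.diff X.lefC (X.cls χ p) i m := by
  obtain ⟨a, rfl⟩ : ∃ a : ℕ, i = ((a + 1 : ℕ) : ℤ) := ⟨(i - 1).toNat, by push_cast; omega⟩
  rcases lt_or_ge ((n : ℤ) - m - ((a + 1 : ℕ) : ℤ)) 0 with h0 | h0
  · right; left
    rw [eq_bot_iff]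
    rintro x ⟨⟨hx1, -⟩, -⟩
    have hx2 : x ∈ X.tot (-((a + 1 : ℕ) : ℤ)) (-m) := hx1.1.1
    rw [mem_tot] at hx2
    rw [Submodule.mem_bot]
    funext b
    by_cases hb : InColumn (-((a + 1 : ℕ) : ℤ)) b
    · have h1 := (hx2 b).1
      rw [col_neg] at hb
      exact gr_neg (by omega) h1
    · exact (hx2 b).2 hb
  obtain ⟨w, hw⟩ := Int.eq_ofNat_of_zero_le h0
  rcases Nat.lt_or_ge w 2 with hw2 | hw2
  · left
    rcases Nat.lt_or_ge w 1 with hw1 | hw1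
    · have h1 : w = 0 := by omega
      subst h1
      have := nInj0 A a
      rw [show -(m : ℤ) = ((a + 1 : ℕ) : ℤ) - n by omega]
      exact nInj_cl X.sym χ n p _ _ this
    · have h1 : w = 1 := by omega
      subst h1
      have := nInj1 A a
      rw [show -(m : ℤ) = ((a + 2 : ℕ) : ℤ) - n by omega]
      exact nInj_cl X.sym χ n p _ _ this
  · rcases hW (a + 1) w (by omega) hw2 (by omega) (by omega)
      (chr X.cyc' χ n p ((a + 1 : ℕ) : ℤ) (-m)) with h | ⟨h1, h2, h3⟩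
    · apply fine_of_simple X.sym X.lefComplex
      have e1 : Pr X.lefC (Cl X.tot X.actC X.cyc' χ n p) ((a + 1 : ℕ) : ℤ) m =
          X.primPart ((a + 1 : ℕ) : ℤ) (w : ℤ)
            (chr X.cyc' χ n p ((a + 1 : ℕ) : ℤ) (-m)) := by
        unfold Pr Cl SpecialFibre.primPart SpecialFibre.primitive kerPow SpecialFibre.tot
        rw [show ((n : ℤ) + 1 - ((a + 1 : ℕ) : ℤ) - (w : ℤ)).toNat = m + 1 by omega,
          show (n : ℤ) + -m - ((a + 1 : ℕ) : ℤ) = w by omega, inf_right_comm]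
      have e2 : Bd X.diff X.tot ((a + 1 : ℕ) : ℤ) (-m) =
          X.coboundaries ((a + 1 : ℕ) : ℤ) (w : ℤ) := by
        rw [X.bd_eq, show (n : ℤ) + -m - ((a + 1 : ℕ) : ℤ) = w by omega]
      rw [e1, e2]
      exact h
    · left
      subst h1
      obtain ⟨e, he⟩ : ∃ e, n = a + 3 + e := ⟨m, by omega⟩
      have e3 : -(m : ℤ) = ((a + 3 : ℕ) : ℤ) - n := by omega
      rw [e3] at h2 ⊢
      exact nInj_tate A he (by simpa using h3) χ p h2

end Pool.Agent.R942.WS
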