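import Pool.Agent.R942.WS.Induct
import Pool.Agent.Y143.Family

/-!
# From the classes of characters to the whole complex, and back
-/

set_option autoImplicit false

namespace Pool.Agent.R942.WS

open Module Submodule Pool.Agent.Y143 Pool.Agent.Y143.Sym

variable {Ω : Type*} [Field Ω] {C : Type*} [AddCommGroup C] [Module Ω C] {Γ : Type*}
  {d : ℤ → Module.End Ω C} {L : Module.End Ω C} {G : ℤ → ℤ → Submodule Ω C}
  {T : ℤ → Γ → Module.End Ω C} {c : Γ → Ω}

/-- Every character occurs in the family of characters attached to a class. -/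
lemma exists_chr (hc : ∀ g, c g ≠ 0) (n p i j : ℤ) (μ : Γ → Ω) :
    ∃ χ : Γ → Ω, chr c χ n p i j = μ := by
  refine ⟨fun g => (c g ^ ex n p i j)⁻¹ * μ g, ?_⟩
  funext g
  unfold chr
  rw [← mul_assoc, mul_inv_cancel₀ (zpow_ne_zero _ (hc g)), one_mul]

variable [IsAlgClosed Ω] [FiniteDimensional Ω C]

/-- The projections for the columns `i` and `-i` agree. -/
lemma prj_neg (h : Sym d L G T c) (χ : Γ → Ω) (n p i j : ℤ) (x : C) :
    prj (T (-i)) (h.comm (-i)) (chr c χ n p (-i) j) x =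
      prj (T i) (h.comm i) (chr c χ n p i j) x := by
  rw [chr_neg h.cne]
  have := prj_equiv (h.comm i) (h.comm (-i)) (c := fun g => c g ^ i)
    (fun g => zpow_ne_zero _ (h.cne g)) (1 : Module.End Ω C) (fun g x => by
      have h1 := h.shift i i g x
      rw [show i - 2 * i = -i by ring] at h1
      simpa using h1) (chr c χ n p i j) x
  simpa using this

lemma nInj_of_cl (h : Sym d L G T c) (n p i j : ℤ)
    (H : ∀ χ, NInj d (Cl G T c χ n p) i j) : NInj d G i j := by
  intro x hx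
  apply mem_of_prj_mem (h.comm (-i))
  intro μ
  obtain ⟨χ, rfl⟩ := exists_chr h.cne n p (-i) j μ
  refine Sym.bd_cl_le χ n p (-i) j (H χ ⟨h.prj_zc χ n p hx.1, ?_⟩)
  rw [prj_neg h]
  exact h.prj_bd χ n p hx.2

lemma nSurj_of_cl (h : Sym d L G T c) (n p i j : ℤ)
    (H : ∀ χ, NSurj d (Cl G T c χ n p) i j) : NSurj d G i j := by
  intro x hx
  apply mem_of_prj_mem (h.comm i)
  intro μ
  obtain ⟨χ, rfl⟩ := exists_chr h.cne n p i j μ
  obtain ⟨u, hu, v, hv, huv⟩ := Submodule.mem_sup.1 (H χ (h.prj_zc χ n p hx))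
  exact Submodule.mem_sup.2 ⟨u, Sym.zc_cl_le χ n p (-i) j hu, v, Sym.bd_cl_le χ n p i j hv, huv⟩

/-- A coboundary in the class of `χ` is a coboundary of the class. -/
lemma bd_of_mem (h : Sym d L G T c) (χ : Γ → Ω) (n p i j : ℤ) {x : C}
    (hx : x ∈ Cl G T c χ n p i j) (hb : x ∈ Bd d G i j) : x ∈ Bd d (Cl G T c χ n p) i j := by
  have h1 := h.prj_bd χ n p hb
  rwa [prj_of_mem (h.comm i) hx.2] at h1

lemma nInj_cl (h : Sym d L G T c) (χ : Γ → Ω) (n p i j : ℤ)
    (H : NInj d G i j) : NInj d (Cl G T c χ n p) i j := by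
  rintro x ⟨hx1, hx2⟩
  exact bd_of_mem h χ n p (-i) j hx1.1
    (H ⟨Sym.zc_cl_le χ n p (-i) j hx1, Sym.bd_cl_le χ n p i j hx2⟩)

/-- The condition `Fine` from the three alternatives for a simple character. -/
lemma fine_of_simple (h : Sym d L G T c) (hG : LefComplex d L G) (χ : Γ → Ω) (n p i : ℤ)
    (m : ℕ) (H : IsSimpleIn (Pr L (Cl G T c χ n p) i m) (Bd d G i (-m))) :
    Fine d L (Cl G T c χ n p) i m := by
  have hcl := h.cl hG χ n p
  have hle : Zp d L (Cl G T c χ n p) i m ≤ Pr L (Cl G T c χ n p) i m := by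
    rintro x ⟨⟨hx1, hx2⟩, hx3⟩
    exact ⟨hcl.bd_le_G i _ hx2, hx3⟩
  have hle2 : Zp d L (Cl G T c χ n p) i m ≤ Bd d (Cl G T c χ n p) i (-m) := by
    rintro x ⟨⟨hx1, hx2⟩, hx3⟩
    exact hx2
  rcases H with H | H | H
  · by_cases hz : Zp d L (Cl G T c χ n p) i m = ⊥
    · exact Or.inr (Or.inl hz)
    · right; right
      have h1 : 0 < finrank Ω (Zp d L (Cl G T c χ n p) i m) := by
        rw [Nat.pos_iff_ne_zero]
        intro h0
        exact hz (Submodule.finrank_eq_zero.1 h0)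
      have h2 : Zp d L (Cl G T c χ n p) i m = Pr L (Cl G T c χ n p) i m :=
        Submodule.eq_of_le_of_finrank_le hle (by omega)
      rw [← h2]
      exact hle2
  · right; right
    intro x hx
    exact bd_of_mem h χ n p i (-m) hx.1 (H hx)
  · right; left
    rw [eq_bot_iff]
    intro x hx
    have h1 : x ∈ Pr L (Cl G T c χ n p) i m ⊓ Bd d G i (-m) :=
      ⟨hle hx, Sym.bd_cl_le χ n p i _ (hle2 hx)⟩
    rwa [H.eq_bot] at h1

end Pool.Agent.R942.WS
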